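import Mathlib
import Pool.Agent.H60.Fact

open Pool.Agent.H60.Fact in
/-- Part (ii) fails for `m = 3`, `k = 2`: `(-1)^n S_{U_3,2}(n) < 0` for infinitely many `n`. -/
theorem Pool.Agent.Results.MP_e74e95_nt.Counter.result :
    ∃ m k : ℕ, 2 ≤ m ∧ m - 1 ≤ k ∧ ∀ N : ℕ, ∃ n, N ≤ n ∧ (-1) ^ n * S (U m) k n < 0 :=
  ⟨3, 2, by norm_num, by norm_num, main⟩
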